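import Pool.Agent.Helper70.BN.St1

/-! # Project BN: the longest element -/

set_option autoImplicit false

namespace Pool.Agent.Helper95.BN

open Pool.Agent.Helper70.BN

theorem hRLONG (hRINV : StRINV) (hRRED : StRRED) : StRLONG := by
  intro l A d Φ h
  obtain ⟨i1, i2, i3⟩ := hRINV l A d Φ h
  obtain ⟨r1, r2, r3, r4, r5⟩ := hRRED l A d Φ h
  have hb : ∀ w, Red A w → w.length ≤ Φ.card := by
    intro w hw
    rw [← rts_length (A := A) w, ← List.toFinset_card_of_nodup (i3 w hw)]
    apply Finset.card_le_card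
    intro β hβ
    exact rts_mem h w (List.mem_toFinset.1 hβ)
  have hex : ∃ w, Red A w ∧ ∀ w', Red A w' → w'.length ≤ w.length := by
    classical
    have hP : ∃ n, ∃ w, Red A w ∧ Φ.card - w.length = n := ⟨_, [], by simp [Red, rts], rfl⟩
    obtain ⟨w, hw, hn⟩ := Nat.find_spec hP
    refine ⟨w, hw, fun w' hw' => ?_⟩
    have h1 := Nat.find_min' hP ⟨w', hw', rfl⟩
    have h2 := hb w hw
    have h3 := hb w' hw'
    omega
  obtain ⟨w, hw, hmax⟩ := hex
  refine ⟨w, hw, fun i => ?_⟩
  have hi : al i ∈ rts A w := by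
    by_contra hcon
    have h1 := hmax _ (r1 i w hw hcon)
    simp at h1
  obtain ⟨w', h1, h2, _⟩ := r5 i w hw hi
  exact ⟨w', h1, h2⟩

end Pool.Agent.Helper95.BN
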